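import Pool.Agent.H684AN.Vs4

set_option autoImplicit false
open Classical
open scoped commutatorElement

/-!
Equality of asymptotic dimension and Assouad-Nagata dimension, for finitely generated groups with an
at most exponential Folner function that have a finite-index subgroup `H` which is an extension of a
locally finite group `L` by a free abelian group of rank `k`, when far commutators in `L` are
centralised by a finite-index subgroup.
-/

namespace Pool.Agent.Results.MP_5e7d86_al.DimEqualRank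

/-- Let `G` be generated by the finite set `S`, let `H` be a finite-index subgroup of `G`, let
`L` be a normal subgroup of `H` which is locally finite, with `H ⧸ L` free abelian of rank `k`, and
let `K` be a finite-index subgroup of `H`. Suppose that for all `x, y` in `L` and all `g` in `H`
outside finitely many cosets of `L`, the commutator of `x` and `g * y * g⁻¹` commutes with `K`.
If the Folner function of `G` is at most exponential, then for every `d` the asymptotic dimension of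
`G` is at most `d` if and only if its Assouad-Nagata dimension is at most `d`, if and only if
`k ≤ d`. -/
theorem result :
    ∀ (G : Type) [Group G] (S : Finset G), Subgroup.closure (S : Set G) = ⊤ →
      ∀ (H : Subgroup G), H.FiniteIndex → ∀ (L : Subgroup H) [L.Normal],
        (∀ E : Finset H, (E : Set H) ⊆ L → (Subgroup.closure (E : Set H) : Set H).Finite) →
        ∀ (K : Subgroup H), K.FiniteIndex →
        (∀ x ∈ L, ∀ y ∈ L, ∃ E : Set (H ⧸ L), E.Finite ∧ ∀ g : H,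
          (QuotientGroup.mk g : H ⧸ L) ∉ E → ∀ w ∈ K, Commute ⁅x, g * y * g⁻¹⁆ w) →
        ∀ k : ℕ, Nonempty ((H ⧸ L) ≃* Multiplicative (Fin k → ℤ)) →
        (∃ C : ℕ, ∀ n : ℕ, 1 ≤ n → ∃ F : Finset G, F.Nonempty ∧ F.card ≤ C ^ n ∧
            n * (F.filter (fun g => ∃ s ∈ S, g * s ∉ F)).card ≤ F.card) →
        ∀ d : ℕ,
          ((∀ r : ℕ, ∃ B : ℕ, ∃ U : Fin (d + 1) → Set (Set G),
              (∀ g : G, ∃ i, ∃ A ∈ U i, g ∈ A) ∧
              (∀ i, ∀ A ∈ U i, ∀ g ∈ A, ∀ h ∈ A, ∃ l : List G, l.length ≤ B ∧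
                  (∀ x ∈ l, x ∈ S ∨ x⁻¹ ∈ S) ∧ g⁻¹ * h = l.prod) ∧
              (∀ i, ∀ A ∈ U i, ∀ A' ∈ U i, A ≠ A' → ∀ g ∈ A, ∀ h ∈ A',
                  ¬ ∃ l : List G, l.length ≤ r ∧
                    (∀ x ∈ l, x ∈ S ∨ x⁻¹ ∈ S) ∧ g⁻¹ * h = l.prod))
          ↔ (∃ c : ℕ, ∀ r : ℕ, ∃ U : Fin (d + 1) → Set (Set G),
              (∀ g : G, ∃ i, ∃ A ∈ U i, g ∈ A) ∧
              (∀ i, ∀ A ∈ U i, ∀ g ∈ A, ∀ h ∈ A, ∃ l : List G, l.length ≤ c * r ∧
                  (∀ x ∈ l, x ∈ S ∨ x⁻¹ ∈ S) ∧ g⁻¹ * h = l.prod) ∧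
              (∀ i, ∀ A ∈ U i, ∀ A' ∈ U i, A ≠ A' → ∀ g ∈ A, ∀ h ∈ A',
                  ¬ ∃ l : List G, l.length ≤ r ∧
                    (∀ x ∈ l, x ∈ S ∨ x⁻¹ ∈ S) ∧ g⁻¹ * h = l.prod)))
          ∧ ((∃ c : ℕ, ∀ r : ℕ, ∃ U : Fin (d + 1) → Set (Set G),
              (∀ g : G, ∃ i, ∃ A ∈ U i, g ∈ A) ∧
              (∀ i, ∀ A ∈ U i, ∀ g ∈ A, ∀ h ∈ A, ∃ l : List G, l.length ≤ c * r ∧
                  (∀ x ∈ l, x ∈ S ∨ x⁻¹ ∈ S) ∧ g⁻¹ * h = l.prod) ∧
              (∀ i, ∀ A ∈ U i, ∀ A' ∈ U i, A ≠ A' → ∀ g ∈ A, ∀ h ∈ A',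
                  ¬ ∃ l : List G, l.length ≤ r ∧
                    (∀ x ∈ l, x ∈ S ∨ x⁻¹ ∈ S) ∧ g⁻¹ * h = l.prod))
            ↔ k ≤ d) := by
  intro G _ S hS H hfi L _ hloc K hK hfar k hq hF d
  have hWL : ∀ (n : ℕ) (g h : G), H684AN.WL S n (g⁻¹ * h) ↔ ∃ l : List G, l.length ≤ n ∧
      (∀ x ∈ l, x ∈ S ∨ x⁻¹ ∈ S) ∧ g⁻¹ * h = l.prod := by
    intro n g h
    constructor
    · rintro ⟨l, h1, h2, h3⟩
      exact ⟨l, h1, h2, h3.symm⟩
    · rintro ⟨l, h1, h2, h3⟩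
      exact ⟨l, h1, h2, h3.symm⟩
  have h := H684AN.main_Dim2 S hS H hfi L hloc K hK hfar k hq (H684AN.folExp_of S hF) d
  simp only [H684AN.AsD, H684AN.AnD, hWL] at h
  exact h

end Pool.Agent.Results.MP_5e7d86_al.DimEqualRank
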